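import Pool.Agent.K1H5.PLN.Main

set_option autoImplicit false

/-!
# The Bass trace conjecture for groups of piecewise linear homeomorphisms of `ℝⁿ`

Let a group `G` act on `ℝⁿ` by piecewise linear homeomorphisms (finitely many polyhedral pieces)
whose linear parts are in `GL_n(A)` for a subring `A` of `ℝ`, and let `R` be a domain of
characteristic zero, or a domain such that some prime `p` is neither a unit of `R` nor a unit of
`A`. Then the Hattori–Stallings rank of an idempotent matrix over `R[G]` vanishes at each `g` in `G`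
such that some power of `g` acts nontrivially and fixes an open subset of `ℝⁿ` or moves all points
by a bounded amount. So the conjecture holds for all groups of piecewise linear homeomorphisms all
of whose elements have such a power, for instance for all groups of piecewise linear homeomorphisms
with compact supports, and for all groups of piecewise linear homeomorphisms at bounded distance
from the identity.

Main steps. Let `h ≠ 1` fix an open set, let `U` be the interior of its fixed point set, and let
`t h t⁻¹ = h ^ m` with `m ≥ 2`. (a) By Baire's theorem some boundary point `z` of `U` is such that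
no point `t⁻ⁱ z` is on two different hyperplanes of the arrangement of `h` and `t`. (b) Near such a
point `x = t⁻ⁱ z` the map `h` is the identity on one side of a hyperplane `a ⬝ (y - x) = 0` and
`y ↦ y + (a ⬝ (y - x)) v`, `v ≠ 0`, on the other side; this is preserved by `t⁻¹`. (c) Let
`Nᵢ = vᵢ aᵢ` be the matrices of rank one so obtained and `Sᵢ` the linear part of `t` at `t⁻ⁱ z` on
this side. Then `Sᵢ₊₁ Nᵢ₊₁ = κᵢ Nᵢ Sᵢ₊₁` with `κᵢ = 1 + αᵢ + … + αᵢ ^ (m - 1)`, `αᵢ = 1 + aᵢ ⬝ vᵢ`.
As `h` has finitely many linear parts, `Nᵢ = Nⱼ` for some `i < j`, so all `αᵢ` are `1` and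
`S N = m ^ k N S` with `N ≠ 0`, `k ≥ 1` and `S` in `GL_n(A)`. (d) So `m ^ (-k)` is a product of
eigenvalues of `S` and `S⁻¹`, hence integral over `A`, and `m⁻¹` is in `A`. If `h` moves all points
by a bounded amount then far from all hyperplanes it is a translation, by a nonzero vector `b` (or
it fixes an open set), and a similar argument gives `S b = m ^ k b`. (e) For a finitely generated
group `A` can be taken finitely generated, and then `p⁻¹` is in `A` for finitely many primes `p`
only.

Starting library used: `Pool.Agent.H26R2.Bass` (reduction to finitely generated groups, elements of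
finite order, Linnell's lemma: a nonzero value at `g` and a prime `p` that is not a unit give
`j ≥ 1` with `g` conjugate to `g ^ p ^ j`).
-/

namespace Pool.Agent.Results.MP_7903c7_al.PLHomeomorphisms

open Matrix

universe u v

/-- The value at the conjugacy class of `g` of the Hattori–Stallings rank of the matrix `X`: the sum
of the diagonal coefficients of `X` at the conjugates of `g`. -/
noncomputable def rank {R : Type u} [CommRing R] {G : Type v} [Group G] {k : ℕ}
    (X : Matrix (Fin k) (Fin k) (MonoidAlgebra R G)) (g : G) : R :=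
  ∑ i : Fin k, ∑ᶠ (h : G) (_ : IsConj h g), (X i i).coeff h

/-- The Bass trace conjecture for the domain `R` and the group `G`. -/
def BassFor (R : Type u) [CommRing R] [IsDomain R] (G : Type v) [Group G] : Prop :=
  ∀ (n : ℕ) (X : Matrix (Fin n) (Fin n) (MonoidAlgebra R G)), X * X = X →
    ∀ g : G, ¬ IsUnit ((orderOf g : ℕ) : R) → rank X g = 0

/-- The space `ℝⁿ`. -/
abbrev E (n : ℕ) : Type := Fin n → ℝ

/-- The group of the homeomorphisms of `ℝⁿ`. -/
abbrev Hom (n : ℕ) : Type := E n ≃ₜ E n

/-- `M` and its inverse have entries in `A`. -/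
def InGL {n : ℕ} (A : Subring ℝ) (M : Matrix (Fin n) (Fin n) ℝ) : Prop :=
  ∃ M' : Matrix (Fin n) (Fin n) ℝ, (∀ i j, M i j ∈ A) ∧ (∀ i j, M' i j ∈ A) ∧
    M * M' = 1 ∧ M' * M = 1

/-- The value at `x` of the affine functional `x ↦ a ⬝ x + c`, `l = (a, c)`. -/
def val {n : ℕ} (l : E n × ℝ) (x : E n) : ℝ := l.1 ⬝ᵥ x + l.2

/-- `x` and `y` are strictly on the same side of all hyperplanes `val l = 0`, `l ∈ Λ`. -/
def SameCell {n : ℕ} (Λ : Finset (E n × ℝ)) (x y : E n) : Prop := ∀ l ∈ Λ, 0 < val l x * val l y

/-- On each component of the complement of the hyperplanes `val l = 0`, `l ∈ Λ`, the map `f`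
coincides with one of the affine maps `y ↦ M y + b`, `(M, b) ∈ S`. -/
def Pieces {n : ℕ} (f : Hom n) (Λ : Finset (E n × ℝ))
    (S : Finset (Matrix (Fin n) (Fin n) ℝ × E n)) : Prop :=
  ∀ x, (∀ l ∈ Λ, val l x ≠ 0) → ∃ s ∈ S, ∀ y, SameCell Λ x y → f y = s.1 *ᵥ y + s.2

/-- The homeomorphism `f` of `ℝⁿ` is piecewise linear with linear parts in `GL_n(A)`: there are
finitely many hyperplanes `a ⬝ x + c = 0` (`(a, c)` in `Λ`, `a ≠ 0`) and finitely many affine maps
`y ↦ M y + b` (`(M, b)` in `S`) such that `M` and its inverse have entries in `A`, and such that on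
each component of the complement of the hyperplanes `f` coincides with one of the affine maps. -/
def IsPL {n : ℕ} (A : Subring ℝ) (f : Hom n) : Prop :=
  ∃ (Λ : Finset (E n × ℝ)) (S : Finset (Matrix (Fin n) (Fin n) ℝ × E n)),
    (∀ l ∈ Λ, l.1 ≠ 0) ∧ (∀ s ∈ S, InGL A s.1) ∧ Pieces f Λ S

/-- `f` fixes all points of a nonempty open set, or moves all points by a bounded amount. -/
def Tame {n : ℕ} (f : Hom n) : Prop :=
  (interior {x | f x = x}).Nonempty ∨ ∃ C : ℝ, ∀ x, ‖f x - x‖ ≤ C

/-- `R` has characteristic zero, or some prime `p` is not a unit of `R` and `p⁻¹` is not in `A`. -/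
def Allowed (R : Type u) [CommRing R] (A : Subring ℝ) : Prop :=
  CharZero R ∨ ∃ p : ℕ, p.Prime ∧ ¬ IsUnit (p : R) ∧ (p : ℝ)⁻¹ ∉ A

/-- For every action `ρ` of the group `G` on `ℝⁿ` by piecewise linear homeomorphisms with linear
parts in `GL_n(A)`, the rank of every idempotent matrix over `R[G]` vanishes at each `g` such that
some power of `g` acts nontrivially and is tame. -/
def RankVanishes (R : Type u) [CommRing R] (n : ℕ) (A : Subring ℝ) (G : Type v) [Group G] : Prop :=
  ∀ ρ : G →* Hom n, (∀ x, IsPL A (ρ x)) →
    ∀ (k : ℕ) (X : Matrix (Fin k) (Fin k) (MonoidAlgebra R G)), X * X = X →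
      ∀ (g : G) (N : ℕ), ρ g ^ N ≠ 1 → Tame (ρ g ^ N) → rank X g = 0

theorem Tame.lib {n : ℕ} {f : Hom n} (h : Tame f) : K1H5.PLN.Tame f := by
  rcases h with h | ⟨C, hC⟩
  · exact Or.inl h
  · exact Or.inr ⟨C, fun x i => (norm_le_pi_norm (f x - x) i).trans (hC x)⟩

/-- Let `A` be a subring of `ℝ` and `R` a commutative domain of characteristic zero, or a
commutative domain such that some prime `p` is not a unit of `R` and `p⁻¹` is not in `A`.
(1) Let a group `G` act on `ℝⁿ` by piecewise linear homeomorphisms with linear parts in `GL_n(A)`,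
and let `X` be an idempotent matrix over `R[G]`. If some power of `g` acts nontrivially and is tame,
then the diagonal coefficients of `X` at the conjugates of `g` sum to zero.
(2) The Bass trace conjecture holds for `R` and every group of piecewise linear homeomorphisms of
`ℝⁿ` with linear parts in `GL_n(A)` all of whose elements have a tame positive power. -/
theorem result (R : Type u) [CommRing R] [IsDomain R] (n : ℕ) (A : Subring ℝ)
    (hR : Allowed R A) :
    (∀ (G : Type v) [Group G], RankVanishes R n A G) ∧
    ∀ Γ : Subgroup (Hom n),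
      (∀ f ∈ Γ, IsPL A f ∧ ∃ N : ℕ, 0 < N ∧ Tame (f ^ N)) → BassFor R Γ := by
  constructor
  · intro G _ ρ hρ k X hX g N hg hT
    exact K1H5.PLN.tau_tame A hR ρ hρ X hX g N hg hT.lib
  · intro Γ hΓ k X hX g hg
    refine K1H5.PLN.bass_tame A hR Γ.subtype (fun x => (hΓ x x.2).1) (fun x => ?_) X hX g hg
    obtain ⟨N, hN, hT⟩ := (hΓ x x.2).2
    refine ⟨N, hN, fun h => ?_, hT.lib⟩
    apply Subtype.ext
    simpa using h

end Pool.Agent.Results.MP_7903c7_al.PLHomeomorphisms
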