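import Pool.Agent.K1H5.PL.Main

set_option autoImplicit false

/-!
# The Bass trace conjecture for groups of piecewise linear homeomorphisms of the line

Let `Γ` be a group of piecewise linear homeomorphisms of the line, each with finitely many
breakpoints, and let `R` be a commutative domain. The Bass trace conjecture holds for `R` and `Γ`

* if `R` has characteristic zero;
* if some prime `p` is not a unit of `R` and no element of `Γ` has, for some `j ≥ 1`, the slope
  `p ^ j` near both ends of the line (for example if all elements of `Γ` are the identity near one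
  end);
* if `Γ` is the Bieri–Strebel group `G(ℝ; A, P)` of a cyclic group `P` of positive real numbers and
  a subgroup `A` of `ℝ` with `P A = A`: the group of all such homeomorphisms with slopes in `P`,
  breakpoints in `A` and `f A = A`.

Main steps. (a) If `t h t⁻¹ = h ^ m` with `m ≥ 2` and `h ≠ 1`, then comparing the (finitely many)
one-sided slopes of `h` at its fixed points shows that `h` has no fixed point and is a translation
near both ends, where `t` has slope `m`. (b) In `G(ℝ; A, P)` such an element `h` is conjugate to the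
translation `x ↦ x + b` that it agrees with near `+∞`, by the limit `φ` of `h ^ n - n b`: as
`h ^ (m ^ i) = t ^ i h t ^ (-i)` has at most `C i + C'` breakpoints, `φ` has finitely many of them.
So the class of `h` is determined by its germ at `+∞`, an element of `A ⋊ P`. (c) For the metabelian
group `A ⋊ P`, `P` generated by `l`, and a finite field `k` with `q` elements, `l ^ I = q ^ j`, the
monomial representations over `E(z)`, `E / k` finite, induced from characters of
`A / (q ^ (j D) - 1) A` are twisted by a power of the Frobenius map under the shift by `l ^ I`; a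
descent argument with a determinant and the degree in `z` shows that the rank of an idempotent
matrix in such a representation is divisible by `D`, and if `D` is a large multiple of the
characteristic this gives the vanishing at the class of the translation.

Starting library used: `Pool.Agent.H26R2.Bass` (reduction to finitely generated groups, elements of
finite order, Linnell's lemma: a nonzero value at `g` and a prime `p` that is not a unit give
`j ≥ 1` with `g` conjugate to `g ^ p ^ j`) and `Pool.Agent.H23R2` (the trace functions).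
-/

namespace Pool.Agent.Results.MP_7903c7_al.PiecewiseLinearGroups

universe u v

/-- The Bass trace conjecture for the domain `R` and the group `G`. -/
def BassFor (R : Type u) [CommRing R] [IsDomain R] (G : Type v) [Group G] : Prop :=
  ∀ (n : ℕ) (A : Matrix (Fin n) (Fin n) (MonoidAlgebra R G)), A * A = A →
    ∀ g : G, ¬ IsUnit ((orderOf g : ℕ) : R) →
      ∑ i : Fin n, ∑ᶠ (h : G) (_ : IsConj h g), (A i i).coeff h = 0

/-- `f` is a piecewise linear homeomorphism of the line with finitely many breakpoints: on every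
interval without points of the finite set `S` in its interior, `f` is affine. -/
def IsPL (f : ℝ ≃o ℝ) : Prop :=
  ∃ S : Finset ℝ, ∀ x y : ℝ, (∀ s ∈ S, s ∉ Set.Ioo x y) →
    ∃ a b : ℝ, ∀ z ∈ Set.Icc x y, f z = a * z + b

/-- `f` has slope `a` near `+∞`. -/
def SlopeTop (f : ℝ ≃o ℝ) (a : ℝ) : Prop := ∃ b M : ℝ, ∀ z : ℝ, M ≤ z → f z = a * z + b

/-- `f` has slope `a` near `-∞`. -/
def SlopeBot (f : ℝ ≃o ℝ) (a : ℝ) : Prop := ∃ b M : ℝ, ∀ z : ℝ, z ≤ M → f z = a * z + b

/-- `f` is in the Bieri–Strebel group `G(ℝ; A, P)`: it is piecewise linear with slopes in `P` and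
finitely many breakpoints, all in `A`, and it maps `A` onto `A`. -/
def IsBieriStrebel (A : AddSubgroup ℝ) (P : Subgroup ℝˣ) (f : ℝ ≃o ℝ) : Prop :=
  (∃ S : Finset ℝ, (∀ s ∈ S, s ∈ A) ∧ ∀ x y : ℝ, (∀ s ∈ S, s ∉ Set.Ioo x y) →
    ∃ p ∈ P, ∃ b : ℝ, ∀ z ∈ Set.Icc x y, f z = (p : ℝ) * z + b) ∧ ∀ x, f x ∈ A ↔ x ∈ A

/-- Let `Γ` be a group of piecewise linear homeomorphisms of the line with finitely many
breakpoints and `R` a commutative domain. The Bass trace conjecture holds for `R` and `Γ` if `R` has
characteristic zero, or if for some prime `p` that is not a unit of `R` no element of `Γ` has slope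
`p ^ j`, `j ≥ 1`, near both ends, or if `Γ` is the Bieri–Strebel group `G(ℝ; A, P)` with a
cyclic group `P` of positive real numbers and `P A ⊆ A`. -/
theorem result (R : Type u) [CommRing R] [IsDomain R] (Γ : Subgroup (ℝ ≃o ℝ))
    (hΓ : ∀ f ∈ Γ, IsPL f)
    (h : CharZero R ∨
      (∃ p : ℕ, p.Prime ∧ ¬ IsUnit (p : R) ∧ ∀ f ∈ Γ, ∀ j : ℕ, 1 ≤ j →
        SlopeTop f ((p : ℝ) ^ j) → ¬ SlopeBot f ((p : ℝ) ^ j)) ∨
      (∃ (A : AddSubgroup ℝ) (P : Subgroup ℝˣ), (∀ q ∈ P, 0 < (q : ℝ)) ∧
        (∀ q ∈ P, ∀ a ∈ A, (q : ℝ) * a ∈ A) ∧ (∃ w : ℝˣ, P = Subgroup.zpowers w) ∧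
        ∀ f : ℝ ≃o ℝ, f ∈ Γ ↔ IsBieriStrebel A P f)) :
    BassFor R Γ := by
  have hline : ∀ hR : CharZero R ∨ ∃ p : ℕ, p.Prime ∧ ¬ IsUnit (p : R) ∧ ∀ f ∈ Γ, ∀ j : ℕ, 1 ≤ j →
      (∃ b, K1H5.PL.AE 1 f ((p : ℝ) ^ j) b) → ¬ ∃ b, K1H5.PL.AE (-1) f ((p : ℝ) ^ j) b,
      BassFor R Γ :=
    fun hR n A hA g hg => K1H5.PL.bass_line Γ hΓ hR A hA g hg
  rcases h with h | ⟨p, hp, hpR, h⟩ | ⟨A, P, hP0, hPA, hcyc, hmem⟩
  · exact hline (Or.inl h)
  · refine hline (Or.inr ⟨p, hp, hpR, fun f hf j hj => ?_⟩)
    rintro ⟨b, _, M, hM⟩ ⟨c, _, N, hN⟩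
    refine h f hf j hj ⟨b, M, fun z hz => ?_⟩ ⟨c, -N, fun z hz => ?_⟩
    · have := hM z hz
      rwa [one_mul] at this
    · have := hN (-z) (by linarith)
      rwa [neg_one_mul, neg_neg] at this
  · have e : Γ = K1H5.PL.BSG A P := by
      ext f
      exact hmem f
    subst e
    intro n X hX g hg
    exact K1H5.PL.bass_bs hP0 hPA hcyc X hX g hg

end Pool.Agent.Results.MP_7903c7_al.PiecewiseLinearGroups
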