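import Mathlib
import Pool.Agent.H26R2.Bass.Main
import Pool.Agent.K1H5.BassRed.Wr
import Pool.Agent.K1H5.BassRed.Fld
import Pool.Agent.K1H5.BassRed.FP

set_option autoImplicit false

/-!
# Reduction of the Bass trace conjecture to idempotents of `𝔽_p[G]`, `G` finitely presented

The conjecture for all domains `R`, all groups `G` and all idempotent matrices over `R[G]` is
equivalent to its special case `R = 𝔽_p`, `n = 1`, `G` finitely presented, `g` of infinite order and
conjugate to `g ^ (p ^ j)` for some `j ≥ 1`. For domains of characteristic `p` the special case of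
this `p` suffices, and for domains of characteristic zero any infinite set of primes.

Proof. For `g` of finite order the conjecture is a theorem. If it fails for `A` and `g` of infinite
order, specialise `A` to an idempotent matrix over `F[G]` for a finite field `F` with at least three
elements, and enlarge `A` so that its size `N` is prime to `p`. The group `S` of the monomial
matrices of size `N` over `F` whose permutation is a power of an `N`-cycle has order prime to `p`,
and `𝔽_p[S] → M_N(F)` is surjective. By Maschke's theorem idempotents lift along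
`𝔽_p[S × G] → M_N(F[G])`, and one of the class sums of the lift `e` at `(s, g)` does not vanish. The
relations between products of at most two elements of the support of `e` define a finitely presented
group to which `e` lifts.
-/

namespace Pool.Agent.Results.MP_7903c7_al.ReductionToPrimeFields

open MonoidAlgebra
open Pool.Agent.H23R2.Cyc (ell ell_single ell_mul_comm ell_eq_sum tf tf_apply)
open Pool.Agent.H26R2.IdemLI (ch)
open Pool.Agent.H26R2.Bass (ind ind_comm ell_class ell_ch tf_ch tau tau_eq tf_zero_of_prime
  tf_zero_of_finite)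
open Pool.Agent.K1H5.BassRed

universe u v w

/-- The Bass trace conjecture for the domain `R` and the group `G`. -/
def BassFor (R : Type u) [CommRing R] [IsDomain R] (G : Type v) [Group G] : Prop :=
  ∀ (n : ℕ) (A : Matrix (Fin n) (Fin n) (MonoidAlgebra R G)), IsIdempotentElem A →
    ∀ g : G, ¬ IsUnit ((orderOf g : ℕ) : R) →
      ∑ i : Fin n, ∑ᶠ (h : G) (_ : IsConj h g), (A i i).coeff h = 0

/-- The special case for the prime `p`: for every finitely presented group `G`, every idempotent `e`
of `𝔽_p[G]` and every `g` in `G` of infinite order which is conjugate to `g ^ (p ^ j)` for some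
`j ≥ 1`, the sum of the coefficients of `e` at the conjugates of `g` is zero. -/
def SpecialCase (p : ℕ) : Prop :=
  ∀ (n : ℕ) (rels : Set (FreeGroup (Fin n))), rels.Finite →
    ∀ e : MonoidAlgebra (ZMod p) (PresentedGroup rels), IsIdempotentElem e →
      ∀ g : PresentedGroup rels, orderOf g = 0 → (∃ j : ℕ, 1 ≤ j ∧ IsConj g (g ^ p ^ j)) →
        ∑ᶠ (h : PresentedGroup rels) (_ : IsConj h g), e.coeff h = 0

/-- a class sum as a functional -/
lemma ell_eq_finsum {R : Type u} [CommRing R] {G : Type v} [Group G] (e : MonoidAlgebra R G)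
    (g : G) : ell (ind R g) e = ∑ᶠ (h : G) (_ : IsConj h g), e.coeff h := by
  have h1 := tau_eq (Matrix.of (fun _ _ : Fin 1 => e)) g
  rw [tf_apply, tau] at h1
  simpa using h1.symm

lemma orderOf_isConj {G : Type v} [Group G] {a b : G} (h : IsConj a b) :
    orderOf a = orderOf b := by
  obtain ⟨c, hc⟩ := isConj_iff.1 h
  rw [← hc]
  exact (orderOf_injective (MulAut.conj c).toMonoidHom (MulAut.conj c).injective a).symm

/-- fields of characteristic `p` -/
theorem step {p : ℕ} (hp : p.Prime) (h : SpecialCase p) {K : Type u} [Field K] [CharP K p]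
    {G : Type v} [Group G] {n : ℕ} (A : Matrix (Fin n) (Fin n) (MonoidAlgebra K G))
    (hA : A * A = A) (g : G) (hg : orderOf g = 0) : tf (ind K g) A = 0 := by
  classical
  have hfact : Fact p.Prime := ⟨hp⟩
  by_contra hne
  obtain ⟨F, _, _, _, h3, A', hA', hg'⟩ := to_finite (p := p) A hA g hne
  obtain ⟨S, _, _, _, e, s, x, he, hx, hne2⟩ := exists_prime_field (p := p) h3 A' hA' g hg'
  obtain ⟨m, rels, hrels, φ, e', γ, he', hγ, hne3⟩ := exists_fp e he (s, x) hne2
  have hord : orderOf γ = 0 := by
    have h1 : IsConj (φ γ).2 x := MonoidHom.map_isConj (MonoidHom.snd S G) hγ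
    have h2 : orderOf (φ γ).2 = 0 := by rw [orderOf_isConj h1, orderOf_isConj hx, hg]
    have h4 : orderOf (((MonoidHom.snd S G).comp φ) γ) ∣ orderOf γ := orderOf_map_dvd _ _
    have h5 : orderOf (((MonoidHom.snd S G).comp φ) γ) = 0 := h2
    rw [h5, zero_dvd_iff] at h4
    exact h4
  apply hne3
  rw [ell_eq_finsum]
  by_cases hj : ∃ j : ℕ, 1 ≤ j ∧ IsConj γ (γ ^ p ^ j)
  · exact h m rels hrels e' he' γ hord hj
  · push Not at hj
    have hpu : ¬ IsUnit ((p : ℕ) : ZMod p) := by
      rw [CharP.cast_eq_zero]
      exact not_isUnit_zero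
    have h1 := tf_zero_of_prime (R := ZMod p) hp hpu (Matrix.of (fun _ _ : Fin 1 => e')) (by
      ext1 i j
      rw [Matrix.mul_apply]
      simp [he']) γ hj
    rw [tf_apply] at h1
    rw [← ell_eq_finsum]
    simpa using h1

/-- the first part -/
theorem main (R : Type u) [CommRing R] [IsDomain R]
    (hR : (∃ p : ℕ, p.Prime ∧ CharP R p ∧ SpecialCase p) ∨
      (CharZero R ∧ {p : ℕ | p.Prime ∧ SpecialCase p}.Infinite))
    (G : Type v) [Group G] : BassFor R G := by
  intro n A hA g hg
  have h0 := tau_eq A g
  unfold tau at h0
  rw [h0]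
  by_cases hfin : orderOf g = 0
  · let K := FractionRing R
    have hinj := IsFractionRing.injective R K
    apply hinj
    rw [map_zero, ← tf_ch]
    have hAK : (A.map (ch (algebraMap R K) G)) * (A.map (ch (algebraMap R K) G)) =
        A.map (ch (algebraMap R K) G) := by
      rw [← Matrix.map_mul, hA.eq]
    rcases hR with ⟨p, hp, hpR, hS⟩ | ⟨hchar, hinf⟩
    · have hpK : CharP K p := charP_of_injective_algebraMap hinj p
      exact step hp hS _ hAK g hfin
    · have hK : CharZero K := charZero_of_injective_algebraMap hinj
      by_contra hne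
      obtain ⟨m, hm0, hm⟩ := char_zero_red _ hAK g hne
      obtain ⟨p, ⟨hp, hS⟩, hpm⟩ : ∃ p ∈ {p : ℕ | p.Prime ∧ SpecialCase p}, m < p :=
        hinf.exists_gt m
      obtain ⟨k, _, _, E, hE, hgE⟩ := hm p hp (fun h => by
        have := Nat.le_of_dvd (Nat.pos_of_ne_zero hm0) h
        omega)
      exact hgE (step hp hS E hE g hfin)
  · exact tf_zero_of_finite A hA g hfin hg

/-- 1. Let `R` be a domain and suppose that `SpecialCase p` holds for the characteristic `p` of `R`
if it is positive, and for infinitely many primes `p` if it is zero. Then the Bass trace conjecture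
holds for `R` and all groups.
2. The Bass trace conjecture holds for all domains and all groups if and only if `SpecialCase p`
holds for all primes `p`. -/
theorem result :
    (∀ (R : Type u) [CommRing R] [IsDomain R],
      ((∃ p : ℕ, p.Prime ∧ CharP R p ∧ SpecialCase p) ∨
        (CharZero R ∧ {p : ℕ | p.Prime ∧ SpecialCase p}.Infinite)) →
      ∀ (G : Type v) [Group G], BassFor R G) ∧
    ((∀ (R : Type) [CommRing R] [IsDomain R] (G : Type) [Group G], BassFor R G) ↔
      ∀ p : ℕ, p.Prime → SpecialCase p) := by
  refine ⟨fun R _ _ hR G _ => main R hR G, ⟨fun h p hp => ?_, fun h R _ _ G _ => main R ?_ G⟩⟩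
  · intro n rels _ e he g hg _
    have hfact : Fact p.Prime := ⟨hp⟩
    have h1 := h (ZMod p) (PresentedGroup rels) 1 (Matrix.of (fun _ _ => e)) (by
      show Matrix.of (fun _ _ => e) * Matrix.of (fun _ _ => e) = Matrix.of (fun _ _ => e)
      ext1 i j
      rw [Matrix.mul_apply]
      simp [he.eq]) g (by
      rw [hg, Nat.cast_zero]
      exact not_isUnit_zero)
    simpa using h1
  · by_cases hchar : CharZero R
    · refine Or.inr ⟨hchar, ?_⟩
      have h1 : {p : ℕ | p.Prime ∧ SpecialCase p} = {p : ℕ | p.Prime} := by
        ext p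
        exact ⟨fun hp => hp.1, fun hp => ⟨hp, h p hp⟩⟩
      rw [h1]
      exact Nat.infinite_setOfPred_prime
    · obtain ⟨p, hp⟩ := CharP.exists R
      have hp0 : p ≠ 0 := by
        rintro rfl
        exact hchar (CharP.charP_to_charZero R)
      have hpp : p.Prime := (CharP.char_is_prime_or_zero R p).resolve_right hp0
      exact Or.inl ⟨p, hpp, hp, h p hpp⟩

end Pool.Agent.Results.MP_7903c7_al.ReductionToPrimeFields
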