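import Pool.Agent.Y75.BF.Thm

set_option autoImplicit false

/-!
# The Bass trace conjecture for groups with an action of subexponential orbit growth

Let `G` act on a set `X` such that for every finite subset `S` of `G` the number of points
`s₁ ⋯ sₙ • x` (`sᵢ ∈ S`) grows subexponentially in `n`, uniformly in `x`, and such that all elements
of infinite order act with infinite order (for example a faithful action). Then no element of
infinite order of `G` is conjugate to a proper power of itself: if `t h t⁻¹ = h ^ m`, then the powers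
`h ^ j` with `j < m ^ i` are products of at most `(m + 1) i` factors `1, h, t, t⁻¹`, and for a point
`x` with a long `h`-orbit this gives `m ^ i` points among `s₁ ⋯ sₖ • x`, `k = (m + 1) i`. So the
Bass trace conjecture holds for `G` over every commutative domain.

This applies to the full groups of all actions of groups `D` of locally subexponential growth: the
groups of all permutations `g` of `X` with `g x ∈ F x` for a finite subset `F` of `D` depending on
`g`; in particular to all groups of interval exchange transformations, to topological full groups,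
and to the wobbling groups of such `D`.
-/

open scoped Pointwise

namespace Pool.Agent.Results.MP_7903c7_al.SubexponentialOrbits

universe u v w

/-- The Bass trace conjecture for the domain `R` and the group `G`. -/
def BassFor (R : Type u) [CommRing R] [IsDomain R] (G : Type v) [Group G] : Prop :=
  ∀ (n : ℕ) (A : Matrix (Fin n) (Fin n) (MonoidAlgebra R G)), A * A = A →
    ∀ g : G, ¬ IsUnit ((orderOf g : ℕ) : R) →
      ∑ i : Fin n, ∑ᶠ (h : G) (_ : IsConj h g), (A i i).coeff h = 0

/-- The points `s₁ ⋯ sₙ • x` with all `sᵢ` in `S`. -/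
def orb {G : Type v} {X : Type w} [Group G] [MulAction G X] (S : Set G) (n : ℕ) (x : X) : Set X :=
  {y | ∃ g ∈ S ^ n, g • x = y}

/-- For every finite subset `S` of `G` and every `c > 1`, the sets `orb S n x` have at most `c ^ n`
elements for all large `n` and all `x`. -/
def SubexpOrbits (G : Type v) (X : Type w) [Group G] [MulAction G X] : Prop :=
  ∀ S : Finset G, ∀ c : ℝ, 1 < c →
    ∃ N : ℕ, ∀ n : ℕ, N ≤ n → ∀ x : X, ((orb (S : Set G) n x).ncard : ℝ) ≤ c ^ n

/-- Every finitely generated subgroup of `D` has subexponential growth. -/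
def SubexpGrowth (D : Type v) [Group D] : Prop :=
  ∀ S : Finset D, ∀ c : ℝ, 1 < c →
    ∃ N : ℕ, ∀ n : ℕ, N ≤ n → ((((S : Set D) ^ n).ncard : ℕ) : ℝ) ≤ c ^ n

/-- The full group of an action of `D` on `X`: the permutations `g` of `X` such that, for some finite
subset `F` of `D`, every `g x` is of the form `d • x` with `d ∈ F`. -/
def fullGroup (D : Type v) (X : Type w) [Group D] [MulAction D X] : Subgroup (Equiv.Perm X) where
  carrier := {g | ∃ F : Finset D, ∀ x : X, ∃ d ∈ F, g x = d • x}
  one_mem' := ⟨{1}, fun x => ⟨1, by simp, by simp⟩⟩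
  mul_mem' := by
    classical
    rintro a b ⟨F, hF⟩ ⟨F', hF'⟩
    refine ⟨F * F', fun x => ?_⟩
    obtain ⟨d', hd', h1⟩ := hF' x
    obtain ⟨d, hd, h2⟩ := hF (b x)
    exact ⟨d * d', Finset.mul_mem_mul hd hd', by
      rw [Equiv.Perm.mul_apply, h2, h1, mul_smul]⟩
  inv_mem' := by
    classical
    rintro a ⟨F, hF⟩
    refine ⟨F⁻¹, fun x => ?_⟩
    obtain ⟨d, hd, h1⟩ := hF (a⁻¹ x)
    refine ⟨d⁻¹, Finset.inv_mem_inv hd, ?_⟩
    have h2 : a (a⁻¹ x) = x := a.apply_symm_apply x
    rw [h2] at h1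
    rw [eq_inv_smul_iff, ← h1]

section

variable {G : Type v} [Group G]

/-- powers of `h` with `t h t⁻¹ = h ^ m` have logarithmic length -/
theorem pow_mem (S : Set G) (h1 : (1 : G) ∈ S) {h t : G} (hh : h ∈ S) (ht : t ∈ S) (ht' : t⁻¹ ∈ S)
    {m : ℕ} (hm : 2 ≤ m) (hc : t * h * t⁻¹ = h ^ m) :
    ∀ i j : ℕ, j < m ^ i → h ^ j ∈ S ^ ((m + 1) * i) := by
  intro i
  induction i with
  | zero =>
    intro j hj
    rw [pow_zero, Nat.lt_one_iff] at hj
    subst hj
    rw [mul_zero, pow_zero, pow_zero]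
    exact Set.mem_one.2 rfl
  | succ i ih =>
    intro j hj
    have hj' : j / m < m ^ i := Nat.div_lt_of_lt_mul (by rwa [pow_succ'] at hj)
    have hmod : j % m < m := Nat.mod_lt _ (by omega)
    have hpow : h ^ j = h ^ (j % m) * (t * h ^ (j / m) * t⁻¹) := by
      have hcp : t * h ^ (j / m) * t⁻¹ = (t * h * t⁻¹) ^ (j / m) := by
        rw [conj_pow]
      rw [hcp, hc, ← pow_mul, ← pow_add, Nat.mod_add_div]
    have hd : h ^ (j % m) ∈ S ^ (m - 1) :=
      Set.pow_subset_pow_right h1 (by omega) (Set.pow_mem_pow hh)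
    have hmem : h ^ (j % m) * (t * h ^ (j / m) * t⁻¹) ∈
        S ^ (m - 1) * (S ^ 1 * S ^ ((m + 1) * i) * S ^ 1) :=
      Set.mul_mem_mul hd (Set.mul_mem_mul (Set.mul_mem_mul (by rwa [pow_one]) (ih _ hj'))
        (by rwa [pow_one]))
    rw [← pow_add, ← pow_add, ← pow_add] at hmem
    rw [hpow]
    have he : m - 1 + (1 + (m + 1) * i + 1) = (m + 1) * (i + 1) := by
      have : (m + 1) * (i + 1) = (m + 1) * i + (m + 1) := by ring
      omega
    rwa [he] at hmem

theorem pow_finite (S : Finset G) (n : ℕ) : ((S : Set G) ^ n).Finite := by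
  induction n with
  | zero => rw [pow_zero]; exact Set.finite_one
  | succ n ih => rw [pow_succ]; exact ih.mul S.finite_toSet

theorem orb_finite {X : Type w} [MulAction G X] (S : Finset G) (n : ℕ) (x : X) :
    (orb (S : Set G) n x).Finite := by
  have h : ((S : Set G) ^ n).Finite := pow_finite S n
  refine (h.image fun g => g • x).subset ?_
  rintro y ⟨g, hg, rfl⟩
  exact ⟨g, hg, rfl⟩

theorem noPow {X : Type w} [MulAction G X] (hX : SubexpOrbits G X) {h : G}
    (hinf : ∀ n : ℕ, 0 < n → ∃ x : X, h ^ n • x ≠ x) (m : ℕ) (hm : 2 ≤ m) :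
    ¬ IsConj h (h ^ m) := by
  classical
  intro hc
  obtain ⟨t, ht⟩ := isConj_iff.1 hc
  let S : Finset G := {1, h, t, t⁻¹}
  have hS : (S : Set G) = {1, h, t, t⁻¹} := by simp [S]
  have h1 : (1 : G) ∈ (S : Set G) := by rw [hS]; simp
  have hpm := pow_mem (S : Set G) h1 (h := h) (t := t) (by rw [hS]; simp) (by rw [hS]; simp)
    (by rw [hS]; simp) hm ht
  -- choose the rate
  have hm1 : (1 : ℝ) < m := by exact_mod_cast (by omega : 1 < m)
  obtain ⟨c, hc1, hcm⟩ : ∃ c : ℝ, 1 < c ∧ c ^ (m + 1) < m := by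
    have hcont : Filter.Tendsto (fun c : ℝ => c ^ (m + 1)) (nhds 1) (nhds ((1 : ℝ) ^ (m + 1))) :=
      (continuous_pow (m + 1)).tendsto 1
    rw [one_pow] at hcont
    have hev : ∀ᶠ c : ℝ in nhds 1, c ^ (m + 1) < m := hcont.eventually (gt_mem_nhds hm1)
    have hev2 : ∀ᶠ c : ℝ in nhdsWithin 1 (Set.Ioi 1), c ^ (m + 1) < m :=
      hev.filter_mono nhdsWithin_le_nhds
    obtain ⟨c, hc1, hc2⟩ := (hev2.and self_mem_nhdsWithin).exists
    exact ⟨c, hc2, hc1⟩
  obtain ⟨N, hN⟩ := hX S c hc1
  -- take `i` with `(m+1) * i ≥ N`, `i ≥ 1`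
  let i := N + 1
  have hi : N ≤ (m + 1) * i := by
    have : 1 * N ≤ (m + 1) * (N + 1) := Nat.mul_le_mul (by omega) (by omega)
    simpa [i] using this
  -- a point with a long orbit
  have hlong : ∃ x : X, ∀ a b : ℕ, a < b → b < m ^ i → h ^ a • x ≠ h ^ b • x := by
    by_contra hcon
    push Not at hcon
    obtain ⟨x, hx⟩ := hinf (m ^ i).factorial (Nat.factorial_pos _)
    obtain ⟨a, b, hab, hb, he⟩ := hcon x
    apply hx
    have hper : h ^ (b - a) • x = x := by
      have h2 : h ^ b = h ^ a * h ^ (b - a) := by rw [← pow_add, Nat.add_sub_cancel' hab.le]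
      rw [h2, mul_smul] at he
      exact (MulAction.injective (h ^ a) he).symm
    obtain ⟨k, hk⟩ : b - a ∣ (m ^ i).factorial :=
      Nat.dvd_factorial (by omega) (by omega)
    rw [hk, pow_mul]
    clear hk
    induction k with
    | zero => rw [pow_zero, one_smul]
    | succ k ih => rw [pow_succ, mul_smul, hper, ih]
  obtain ⟨x, hx⟩ := hlong
  have hcard : m ^ i ≤ (orb (S : Set G) ((m + 1) * i) x).ncard := by
    have hinj : Set.InjOn (fun j : ℕ => h ^ j • x) (Finset.range (m ^ i) : Set ℕ) := by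
      intro a ha b hb hab
      rw [Finset.mem_coe, Finset.mem_range] at ha hb
      by_contra hne
      rcases lt_or_gt_of_ne hne with hlt | hlt
      · exact hx a b hlt hb hab
      · exact hx b a hlt ha hab.symm
    have hsub : (fun j : ℕ => h ^ j • x) '' (Finset.range (m ^ i) : Set ℕ) ⊆
        orb (S : Set G) ((m + 1) * i) x := by
      rintro y ⟨j, hj, rfl⟩
      rw [Finset.mem_coe, Finset.mem_range] at hj
      exact ⟨h ^ j, hpm i j hj, rfl⟩
    calc m ^ i = (Finset.range (m ^ i) : Set ℕ).ncard := by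
          rw [Set.ncard_coe_finset, Finset.card_range]
      _ = ((fun j : ℕ => h ^ j • x) '' (Finset.range (m ^ i) : Set ℕ)).ncard :=
          hinj.ncard_image.symm
      _ ≤ _ := Set.ncard_le_ncard hsub (orb_finite S _ x)
  have h2 := hN _ hi x
  have h3 : ((m : ℝ)) ^ i ≤ c ^ ((m + 1) * i) := by
    calc ((m : ℝ)) ^ i = ((m ^ i : ℕ) : ℝ) := by push_cast; rfl
      _ ≤ ((orb (S : Set G) ((m + 1) * i) x).ncard : ℝ) := by exact_mod_cast hcard
      _ ≤ _ := h2
  rw [pow_mul] at h3
  have h4 : (c ^ (m + 1)) ^ i < (m : ℝ) ^ i :=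
    pow_lt_pow_left₀ hcm (by positivity) (by simp [i])
  exact absurd h3 (not_le.2 h4)

theorem bass_of_noPow {R : Type u} [CommRing R] [IsDomain R]
    (hG : ∀ h : G, (∀ n : ℕ, 0 < n → h ^ n ≠ 1) → ∀ m : ℕ, 2 ≤ m → ¬ IsConj h (h ^ m)) :
    BassFor R G := by
  intro n A hA g hg
  refine Pool.Agent.H26R2.Bass.bass_of_local ?_ A hA g hg
  intro H _ h hh
  apply Pool.Agent.Y75.BF.good_of_noPower
  intro m hm hc
  refine hG (h : G) ?_ m hm ?_
  · intro n hn h1
    exact hh ⟨n, hn, Subtype.ext (by rw [Subgroup.coe_pow, h1]; rfl)⟩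
  · have := MonoidHom.map_isConj H.subtype hc
    simpa using this

end

theorem fullGroup_subexp {D : Type v} {X : Type w} [Group D] [MulAction D X]
    (hD : SubexpGrowth D) : SubexpOrbits (fullGroup D X) X := by
  classical
  intro S c hc
  have hch : ∀ g : fullGroup D X, ∃ F : Finset D, ∀ x : X, ∃ d ∈ F, g • x = d • x := fun g => g.2
  choose F hF using hch
  obtain ⟨N, hN⟩ := hD (S.biUnion F) c hc
  refine ⟨N, fun n hn x => le_trans ?_ (hN n hn)⟩
  have key : ∀ n : ℕ, ∀ g ∈ (S : Set (fullGroup D X)) ^ n, ∀ x : X,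
      ∃ d ∈ ((S.biUnion F : Finset D) : Set D) ^ n, g • x = d • x := by
    intro n
    induction n with
    | zero =>
      intro g hg x
      rw [pow_zero] at hg
      rw [Set.mem_one.1 hg]
      exact ⟨1, by rw [pow_zero]; exact Set.mem_one.2 rfl, by rw [one_smul, one_smul]⟩
    | succ n ih =>
      intro g hg x
      rw [pow_succ, Set.mem_mul] at hg
      obtain ⟨a, ha, b, hb, rfl⟩ := hg
      obtain ⟨d', hd', h1⟩ := hF b x
      obtain ⟨d, hd, h2⟩ := ih a ha (b • x)
      refine ⟨d * d', ?_, ?_⟩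
      · rw [pow_succ]
        exact Set.mul_mem_mul hd (Finset.mem_coe.2 (Finset.mem_biUnion.2 ⟨b, hb, hd'⟩))
      · rw [mul_smul, h2, h1, mul_smul]
  have hfin : (((S.biUnion F : Finset D) : Set D) ^ n).Finite := pow_finite _ n
  have hsub : orb (S : Set (fullGroup D X)) n x ⊆
      (fun d : D => d • x) '' (((S.biUnion F : Finset D) : Set D) ^ n) := by
    rintro y ⟨g, hg, rfl⟩
    obtain ⟨d, hd, h1⟩ := key n g hg x
    exact ⟨d, hd, h1.symm⟩
  exact_mod_cast (Set.ncard_le_ncard hsub (hfin.image _)).trans (Set.ncard_image_le hfin)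

/-- 1. Let the group `G` act on a set `X` with `SubexpOrbits G X`, such that every element of infinite
order of `G` acts with infinite order. Then no element of infinite order of `G` is conjugate to a
proper power of itself, and the Bass trace conjecture holds for `G` over every commutative domain.
2. In particular it holds for the full group of every action of every group of locally
subexponential growth. -/
theorem result :
    (∀ (G : Type v) (X : Type w) [Group G] [MulAction G X], SubexpOrbits G X →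
      (∀ h : G, (∀ n : ℕ, 0 < n → h ^ n ≠ 1) → ∀ n : ℕ, 0 < n → ∃ x : X, h ^ n • x ≠ x) →
      (∀ h : G, (∀ n : ℕ, 0 < n → h ^ n ≠ 1) → ∀ m : ℕ, 2 ≤ m → ¬ IsConj h (h ^ m)) ∧
      ∀ (R : Type u) [CommRing R] [IsDomain R], BassFor R G) ∧
    (∀ (D : Type v) (X : Type w) [Group D] [MulAction D X], SubexpGrowth D →
      ∀ (R : Type u) [CommRing R] [IsDomain R], BassFor R (fullGroup D X)) := by
  have key : ∀ (G : Type w) (X : Type w) [Group G] [MulAction G X], SubexpOrbits G X →
      (∀ h : G, (∀ n : ℕ, 0 < n → h ^ n ≠ 1) → ∀ n : ℕ, 0 < n → ∃ x : X, h ^ n • x ≠ x) →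
      ∀ h : G, (∀ n : ℕ, 0 < n → h ^ n ≠ 1) → ∀ m : ℕ, 2 ≤ m → ¬ IsConj h (h ^ m) :=
    fun G X _ _ hX hinf h hh => noPow hX (hinf h hh)
  refine ⟨fun G X _ _ hX hinf => ?_, fun D X _ _ hD R _ _ => ?_⟩
  · have h1 : ∀ h : G, (∀ n : ℕ, 0 < n → h ^ n ≠ 1) → ∀ m : ℕ, 2 ≤ m → ¬ IsConj h (h ^ m) :=
      fun h hh => noPow hX (hinf h hh)
    exact ⟨h1, fun R _ _ => bass_of_noPow h1⟩
  · refine bass_of_noPow (key (fullGroup D X) X (fullGroup_subexp hD) ?_)
    intro h hh n hn
    by_contra hcon
    push Not at hcon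
    apply hh n hn
    apply Subtype.ext
    apply Equiv.ext
    intro x
    exact hcon x

end Pool.Agent.Results.MP_7903c7_al.SubexponentialOrbits
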